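import Pool.Agent.helper84.NR.Spec

/-! # Row WLX of the project NR of helper84 (MP_133bfc_co) -/

set_option autoImplicit false

namespace Pool.Agent.helper84.NR

open scoped Classical
open Finset

private theorem WLX_even {β : Type} [DecidableEq β] {T : Finset β} {a b : β} (hT : T ⊆ {a, b})
    (he : Even T.card) (ha : a ∈ T) : b ∈ T := by
  by_contra hb
  have : T = {a} := by
    ext e
    rw [Finset.mem_singleton]
    constructor
    · intro h
      have h' := hT h
      rw [Finset.mem_insert, Finset.mem_singleton] at h'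
      rcases h' with h' | h'
      · exact h'
      · exact absurd (h' ▸ h) hb
    · rintro rfl
      exact ha
  rw [this, Finset.card_singleton] at he
  exact absurd he (by decide)

private theorem WLX_onV {V F : Type} {M : Cyc V F} {f : F} {e : Sym2 V} {v : V}
    (h : OnE M f e) (hv : v ∈ e) : OnV M f v := by
  obtain ⟨k, rfl⟩ := h
  rcases Sym2.mem_iff.1 hv with rfl | rfl
  · exact ⟨k, rfl⟩
  · exact ⟨k + 1, rfl⟩

private theorem WLX_key (h1 : IDX_stmt) (h3 : DEG_stmt) (h4 : PAR_stmt) (h5 : WW0_stmt)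
    {V F : Type} [Fintype V] [Fintype F] (M : PMap V F) (x y : V) (J : Finset F)
    (hT : TopH M x y J) (q : Quot (lk M (inU M x y J)))
    (hq : ∀ A, OnV M.toCyc A x → Quot.mk _ A ≠ q) (A : F) (hA : OnV M.toCyc A x) (j : ℕ)
    (hj : j + 2 < M.len A) (hno : ¬ ∃ B ∈ J, OnV M.toCyc B (ww M x A (j + 1))) :
    (∃ g, OnE M.toCyc g s(ww M x A (j + 1), ww M x A (j + 2)) ∧ Quot.mk _ g = q) ↔
      (∃ g, OnE M.toCyc g s(ww M x A j, ww M x A (j + 1)) ∧ Quot.mk _ g = q) := by
  obtain ⟨i1, i2, i3, i4, i5⟩ := h1 V F M.toCyc A (st M x A)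
  have hAe1 : OnE M.toCyc A s(ww M x A (j + 1), ww M x A (j + 2)) := ⟨st M x A + (j + 1), rfl⟩
  have hAe0 : OnE M.toCyc A s(ww M x A j, ww M x A (j + 1)) := ⟨st M x A + j, rfl⟩
  have hAq : Quot.mk _ A ≠ q := hq A hA
  have hpar := h4 V F M {f | Quot.mk _ f = q} (ww M x A (j + 1))
  set T := (univ.filter (fun e : Sym2 V => ww M x A (j + 1) ∈ e ∧
    (∃ f, OnE M.toCyc f e ∧ f ∈ {f : F | Quot.mk _ f = q}) ∧
    ∃ g, OnE M.toCyc g e ∧ g ∉ {f : F | Quot.mk _ f = q})) with hTd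
  have hTm : ∀ e : Sym2 V, e ∈ T ↔ ww M x A (j + 1) ∈ e ∧
      (∃ f, OnE M.toCyc f e ∧ Quot.mk _ f = q) ∧ ∃ g, OnE M.toCyc g e ∧ Quot.mk _ g ≠ q := by
    intro e
    rw [hTd, Finset.mem_filter]
    exact ⟨fun h => h.2, fun h => ⟨Finset.mem_univ _, h⟩⟩
  have hsub : T ⊆ {s(ww M x A (j + 1), ww M x A (j + 2)), s(ww M x A j, ww M x A (j + 1))} := by
    intro e he
    obtain ⟨hv, ⟨f, hf, hfq⟩, ⟨g, hg, hgq⟩⟩ := (hTm e).1 he
    have hU : inU M x y J e := by
      by_contra hU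
      have : Quot.mk (lk M (inU M x y J)) f = Quot.mk (lk M (inU M x y J)) g :=
        Quot.sound ⟨e, hU, hf, hg⟩
      exact hgq (this ▸ hfq)
    rcases hU with ⟨hx, A', hA'x, hA'e⟩ | ⟨B, hB, k, -, rfl⟩
    · have hvx : ww M x A (j + 1) ≠ x := by
        intro h
        rw [h] at hv
        exact hx hv
      have hnadj : ¬ Adj M.toCyc x (ww M x A (j + 1)) := by
        intro h
        exact hno (hT.js _ h)
      have hAA : A = A' := (h3 V F M x).1 (ww M x A (j + 1)) A A' hvx hnadj hA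
        ⟨st M x A + (j + 1), rfl⟩ hA'x (WLX_onV hA'e hv)
      subst hAA
      obtain ⟨a, ha, rfl⟩ := i3 e hA'e
      rw [Finset.mem_insert, Finset.mem_singleton]
      rcases Sym2.mem_iff.1 hv with h | h
      · have : j + 1 = a := i1 (j + 1) a (by omega) ha h
        subst this
        exact Or.inl rfl
      · by_cases hal : a + 1 < M.len A
        · have : j + 1 = a + 1 := i1 (j + 1) (a + 1) (by omega) hal h
          have : j = a := by omega
          subst this
          exact Or.inr rfl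
        · exfalso
          have hal' : a + 1 = M.len A := by omega
          apply hvx
          rw [h, Nat.add_assoc, hal']
          exact (h5 V F M x A hA).2
    · exfalso
      apply hno
      refine ⟨B, hB, ?_⟩
      rcases Sym2.mem_iff.1 hv with h | h
      · rw [h]
        exact ⟨_, rfl⟩
      · rw [h]
        exact ⟨_, rfl⟩
  have m1 : s(ww M x A (j + 1), ww M x A (j + 2)) ∈ T ↔
      (∃ g, OnE M.toCyc g s(ww M x A (j + 1), ww M x A (j + 2)) ∧ Quot.mk _ g = q) := by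
    rw [hTm]
    exact ⟨fun h => h.2.1, fun h => ⟨Sym2.mem_mk_left _ _, h, A, hAe1, hAq⟩⟩
  have m0 : s(ww M x A j, ww M x A (j + 1)) ∈ T ↔
      (∃ g, OnE M.toCyc g s(ww M x A j, ww M x A (j + 1)) ∧ Quot.mk _ g = q) := by
    rw [hTm]
    exact ⟨fun h => h.2.1, fun h => ⟨Sym2.mem_mk_right _ _, h, A, hAe0, hAq⟩⟩
  rw [← m1, ← m0]
  refine ⟨fun h => WLX_even hsub hpar h, fun h => WLX_even ?_ hpar h⟩
  rw [Finset.pair_comm]
  exact hsub

theorem WLX (hIDX : IDX_stmt) (hEDG : EDG_stmt) (hDEG : DEG_stmt) (hPAR : PAR_stmt) (hWW0 : WW0_stmt) :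
    WLX_stmt := by
  intro V F _ _ M x y J hT q hq A hA i hi1 hi2 hg
  obtain ⟨w0, w1⟩ := hWW0 V F M x A hA
  have hadj1 : Adj M.toCyc x (ww M x A 1) := by
    refine ⟨A, st M x A + 0, ?_⟩
    have : M.bd A (st M x A + 0) = x := w0
    rw [this]
    rfl
  have hadj2 : Adj M.toCyc x (ww M x A (M.len A - 1)) := by
    have h3' := M.three A
    refine ⟨A, st M x A + (M.len A - 1), ?_⟩
    have : M.bd A (st M x A + (M.len A - 1) + 1) = x := by
      rw [Nat.add_assoc, Nat.sub_add_cancel (by omega)]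
      exact w1
    rw [this, Sym2.eq_swap]
    rfl
  have down : ∀ j, 1 ≤ j → j + 1 < M.len A →
      (∃ g, OnE M.toCyc g s(ww M x A j, ww M x A (j + 1)) ∧ Quot.mk _ g = q) →
      ∃ i1, 1 ≤ i1 ∧ i1 ≤ j ∧ (∃ B ∈ J, OnV M.toCyc B (ww M x A i1)) ∧
        (∃ g, OnE M.toCyc g s(ww M x A i1, ww M x A (i1 + 1)) ∧ Quot.mk _ g = q) := by
    intro j
    induction j with
    | zero => intro h; omega
    | succ j ih =>
      intro hj1 hj2 hg
      by_cases hon : ∃ B ∈ J, OnV M.toCyc B (ww M x A (j + 1))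
      · exact ⟨j + 1, hj1, le_rfl, hon, hg⟩
      · rcases Nat.eq_zero_or_pos j with hj0 | hj0
        · subst hj0
          exact absurd (hT.js _ hadj1) hon
        · obtain ⟨i1, a1, a2, a3, a4⟩ := ih hj0 (by omega)
            ((WLX_key hIDX hDEG hPAR hWW0 M x y J hT q hq A hA j hj2 hon).1 hg)
          exact ⟨i1, a1, by omega, a3, a4⟩
  have up : ∀ n j, n + (j + 1) + 1 = M.len A → 
      (∃ g, OnE M.toCyc g s(ww M x A j, ww M x A (j + 1)) ∧ Quot.mk _ g = q) →
      ∃ i2, j + 1 ≤ i2 ∧ i2 < M.len A ∧ (∃ B ∈ J, OnV M.toCyc B (ww M x A i2)) ∧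
        (∃ g, OnE M.toCyc g s(ww M x A (i2 - 1), ww M x A i2) ∧ Quot.mk _ g = q) := by
    intro n
    induction n with
    | zero =>
      intro j hj hg
      refine ⟨j + 1, le_rfl, by omega, ?_, hg⟩
      have hl : j + 1 = M.len A - 1 := by omega
      rw [hl]
      exact hT.js _ hadj2
    | succ n ih =>
      intro j hj hg
      by_cases hon : ∃ B ∈ J, OnV M.toCyc B (ww M x A (j + 1))
      · exact ⟨j + 1, le_rfl, by omega, hon, hg⟩
      · obtain ⟨i2, a1, a2, a3, a4⟩ := ih (j + 1) (by omega)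
            ((WLX_key hIDX hDEG hPAR hWW0 M x y J hT q hq A hA j (by omega) hon).2 hg)
        exact ⟨i2, by omega, a2, a3, a4⟩
  obtain ⟨i1, a1, a2, a3, a4⟩ := down i hi1 hi2 hg
  obtain ⟨i2, b1, b2, b3, b4⟩ := up (M.len A - i - 2) i (by omega) hg
  exact ⟨i1, i2, a1, a2, b1, b2, a3, b3, a4, b4⟩

end Pool.Agent.helper84.NR
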